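import Pool.Agent.Helper25.LS.Defs

set_option autoImplicit false

open Filter Topology Module Pool.Agent.Helper25.LS

noncomputable section

namespace Pool.Agent.Helper17.LS

section

variable (X : ℕ → Type) [∀ j, NormedAddCommGroup (X j)] [∀ j, NormedSpace ℂ (X j)]
  (U : Ultrafilter ℕ)

/-- the null families along the ultrafilter -/
def Nul : Submodule ℂ (lp X ⊤) where
  carrier := {x | Tendsto (fun j => ‖x j‖) (U : Filter ℕ) (𝓝 0)}
  add_mem' := by
    intro a b ha hb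
    have h := Tendsto.add ha hb
    rw [add_zero] at h
    refine squeeze_zero (fun j => norm_nonneg _) (fun j => ?_) h
    simpa using norm_add_le (a j) (b j)
  zero_mem' := by
    simp
  smul_mem' := by
    intro c x hx
    have h := Tendsto.const_mul ‖c‖ hx
    rw [mul_zero] at h
    refine squeeze_zero (fun j => norm_nonneg _) (fun j => ?_) h
    simp [norm_smul]

lemma mem_nul (x : lp X ⊤) :
    x ∈ Nul X U ↔ Tendsto (fun j => ‖x j‖) (U : Filter ℕ) (𝓝 0) := Iff.rfl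

lemma norm_coord_le (x : lp X ⊤) (j : ℕ) : ‖x j‖ ≤ ‖x‖ :=
  lp.norm_apply_le_norm ENNReal.top_ne_zero x j

lemma exists_lim (x : lp X ⊤) :
    ∃ L : ℝ, Tendsto (fun j => ‖x j‖) (U : Filter ℕ) (𝓝 L) := by
  have hc : IsCompact (Set.Icc (0 : ℝ) ‖x‖) := isCompact_Icc
  have hm : (Set.Icc (0 : ℝ) ‖x‖) ∈ U.map (fun j => ‖x j‖) := by
    rw [Ultrafilter.mem_map]
    refine Filter.univ_mem' (fun j => ?_)
    exact ⟨norm_nonneg _, norm_coord_le X x j⟩
  obtain ⟨L, _, hL⟩ := hc.ultrafilter_le_nhds (U.map (fun j => ‖x j‖)) (by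
    rw [le_principal_iff]; exact hm)
  exact ⟨L, hL⟩

lemma isClosed_nul : IsClosed (Nul X U : Set (lp X ⊤)) := by
  rw [← closure_subset_iff_isClosed]
  intro x hx
  rw [Metric.mem_closure_iff] at hx
  show Tendsto (fun j => ‖x j‖) (U : Filter ℕ) (𝓝 0)
  rw [Metric.tendsto_nhds]
  intro ε hε
  obtain ⟨y, hy, hxy⟩ := hx (ε / 2) (by positivity)
  have hy' : Tendsto (fun j => ‖y j‖) (U : Filter ℕ) (𝓝 0) := hy
  rw [Metric.tendsto_nhds] at hy'
  filter_upwards [hy' (ε / 2) (by positivity)] with j hj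
  rw [Real.dist_0_eq_abs, abs_of_nonneg (norm_nonneg _)] at hj ⊢
  have h1 : ‖x j - y j‖ ≤ ‖x - y‖ := by
    have := norm_coord_le X (x - y) j
    simpa using this
  rw [dist_eq_norm] at hxy
  have h2 : ‖x j‖ ≤ ‖x j - y j‖ + ‖y j‖ := by
    have := norm_add_le (x j - y j) (y j)
    simpa using this
  linarith

instance : IsClosed (Nul X U : Set (lp X ⊤)) := isClosed_nul X U

lemma lim_le_norm (x : lp X ⊤) (L : ℝ)
    (hL : Tendsto (fun j => ‖x j‖) (U : Filter ℕ) (𝓝 L)) : L ≤ ‖x‖ :=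
  le_of_tendsto hL (Filter.Eventually.of_forall (fun j => norm_coord_le X x j))

lemma norm_mk_le_lim (x : lp X ⊤) (L : ℝ)
    (hL : Tendsto (fun j => ‖x j‖) (U : Filter ℕ) (𝓝 L)) :
    ‖(Submodule.Quotient.mk x : lp X ⊤ ⧸ Nul X U)‖ ≤ L := by
  have hL0 : 0 ≤ L := ge_of_tendsto hL (Filter.Eventually.of_forall (fun j => norm_nonneg _))
  refine le_of_forall_pos_le_add (fun ε hε => ?_)
  classical
  have hb : ∀ j, ‖(if ‖x j‖ ≤ L + ε then x j else (0 : X j))‖ ≤ L + ε := by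
    intro j
    split_ifs with h
    · exact h
    · rw [norm_zero]; positivity
  let x' : lp X ⊤ := ⟨fun j => if ‖x j‖ ≤ L + ε then x j else (0 : X j), by
    refine memℓp_infty ⟨L + ε, ?_⟩
    rintro _ ⟨j, rfl⟩
    exact hb j⟩
  have hx' : ‖x'‖ ≤ L + ε := lp.norm_le_of_forall_le (by positivity) (fun j => hb j)
  have hmk : (Submodule.Quotient.mk x : lp X ⊤ ⧸ Nul X U) = Submodule.Quotient.mk x' := by
    rw [Submodule.Quotient.eq]
    show Tendsto (fun j => ‖(x - x') j‖) (U : Filter ℕ) (𝓝 0)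
    refine Tendsto.congr' ?_ tendsto_const_nhds
    have hev : ∀ᶠ j in (U : Filter ℕ), ‖x j‖ < L + ε := hL.eventually_lt_const (by linarith)
    filter_upwards [hev] with j hj
    have : (x - x') j = 0 := by
      show x j - (if ‖x j‖ ≤ L + ε then x j else (0 : X j)) = 0
      rw [if_pos hj.le, sub_self]
    rw [this, norm_zero]
  rw [hmk]
  exact le_trans (Submodule.Quotient.norm_mk_le _ _) hx'

lemma lim_le_norm_mk (x : lp X ⊤) (L : ℝ)
    (hL : Tendsto (fun j => ‖x j‖) (U : Filter ℕ) (𝓝 L)) :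
    L ≤ ‖(Submodule.Quotient.mk x : lp X ⊤ ⧸ Nul X U)‖ := by
  refine le_of_forall_pos_le_add (fun ε hε => ?_)
  obtain ⟨m, hm, hm'⟩ := Submodule.Quotient.norm_mk_lt
    (Submodule.Quotient.mk x : lp X ⊤ ⧸ Nul X U) hε
  rw [Submodule.Quotient.eq] at hm
  have hm2 : Tendsto (fun j => ‖(m - x) j‖) (U : Filter ℕ) (𝓝 0) := hm
  have h3 : Tendsto (fun j => ‖x j‖ - ‖(m - x) j‖) (U : Filter ℕ) (𝓝 (L - 0)) := hL.sub hm2
  rw [sub_zero] at h3
  have h4 : L ≤ ‖m‖ := by
    refine le_of_tendsto h3 (Filter.Eventually.of_forall (fun j => ?_))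
    have h5 := norm_coord_le X m j
    have h6 : (m - x) j = m j - x j := rfl
    have h7 : ‖x j‖ ≤ ‖m j‖ + ‖m j - x j‖ := by
      have := norm_sub_le (m j) (m j - x j)
      simpa using this
    rw [h6]
    linarith
  linarith

end

theorem up : S_UP := by
  intro X _ _ _ U
  refine ⟨lp X ⊤ ⧸ Nul X U, inferInstance, inferInstance, inferInstance, ⟨⟨(Nul X U).mkQ,
    Submodule.mkQ_surjective _, fun x => ?_⟩⟩⟩
  obtain ⟨L, hL⟩ := exists_lim X U x
  have h1 := norm_mk_le_lim X U x L hL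
  have h2 := lim_le_norm_mk X U x L hL
  have h3 : ‖(Nul X U).mkQ x‖ = L := le_antisymm h1 h2
  rw [h3]
  exact hL

end Pool.Agent.Helper17.LS
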